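import Mathlib
import Pool.Agent.V7H82.LR.Cover
import Pool.Agent.V7H82.LR.FinT

/-!
# Homology classes of small dimension or codimension on varieties over finite fields covered by
abelian varieties

Over a finite field each abelian variety becomes isogenous, after a finite extension, to the
reduction `Y` of an abelian variety of CM type (`RedAV`; Honda, Tate). Let `Z` be such a variety,
with CM fields `E i` and Frobenius endomorphisms `π i ∈ E i`. The complex embeddings of the fields
`E i` fall into classes: two embeddings are linked if they can be joined by a chain of embeddings
such that no automorphism of the complex numbers fixes one of two neighbours and conjugates the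
other. Each class shall be

* big: inside one factor, any two pairs of conjugate embeddings can be moved to any two others, and
  the number `b` of the pairs is not exceptional for `r` (there are finitely many exceptions, for
  `r = 2`: `3, 4, 10, 16, 28`), or `b > 2 r` is prime, or odd with the same homogeneity;
* or a tower: inside one factor, which has a CM subfield `F` such that `E / F` has degree larger
  than `2 r`, and the embeddings over each embedding of `F` are permuted doubly homogeneously, or
  cyclically and of prime number, by the automorphisms which fix the others; no power of the
  Frobenius endomorphism lies in a proper subfield over `F`;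
* or small: inside a good set of factors, for example one factor of dimension at most five.

Let `Y` be isogenous to a product of powers of the factors of `Z` and of a supersingular abelian
variety, `dim Y = m + j`, and let `m ≤ r` or `j ≤ r`. Then **all Tate classes of codimension `m`, that
is of dimension `j`, on `Y`, over all finite extensions, are algebraic** (divisor classes and
Markman's Weil classes and what they generate), and for each variety `X`, possibly singular and not
proper, with a good proper cover by `Y`, **each class in `H_{2j}(X, Ω(j))` which is fixed by
Frobenius, over all finite extensions, is a linear combination of classes of cycles of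
dimension `j`**. The slopes of `Y` and the CM types are arbitrary, and in the middle codimensions
there may be Tate classes on `Y` not known to be algebraic.

Proof. A Tate class of codimension `m ≤ r` gives relations of length `2 m ≤ 2 r` between the
Frobenius eigenvalues; these are generated by elementary relations (`elementary_of_goodT`): they
split over the classes; for a big class one uses equiangular tight frames, for a tower the sums over
the fibres over `F` and differences, which are shorter than the degree. If `j ≤ r` the exponents
of the eigenvalues which do not occur in a class of codimension `m` form a relation of length
`2 j ≤ 2 r`, and the product of all eigenvalues is elementary. For `X` one uses that the Frobenius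
operator on the cohomology of `Y` is semisimple: a fixed class on `X` is the image of a Tate
class on `Y`.
-/

set_option autoImplicit false

namespace Pool.Agent.Results.MP_40dc3c_ag.LowDimensionH82

open Pool.Agent.W495.TA Pool.Agent.TH117.BL Pool.Agent.N202.QR Pool.Agent.V7H82.LR Module

/-- **Tate classes of dimension `j` and codimension `m`, one of them at most `r`**, on the abelian
varieties over finite fields with good classes of linked Frobenius eigenvalues, and fixed homology
classes of dimension `j` on the varieties covered by them. -/
theorem result (p : ℕ) [Fact p.Prime] (ν : PadicAlgCl p ≃+* ℂ) (Ω : Type) [Field Ω]
    [IsAlgClosed Ω] [CharZero Ω] (r : ℕ) (Z Y : RedAV p ν) (hZ : HasGoodClassesT r Z)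
    (hY : IsPowersTimesSupersingular Z Y) (m j : ℕ) (hdim : finrank ℚ Y.X.H1 = 2 * (m + j))
    (hr : m ≤ r ∨ j ≤ r) :
    (∀ (s : ℕ) (f : (TM Ω Y) [⋀^Fin (2 * m)]→ₗ[Ω] Ω), 0 < s → IsTateClass Ω Y s m f →
      Alg Ω Y (Fin (2 * m)) f) ∧
    ∀ (X : Cover Ω Y m) (s : ℕ) (x : X.H), 0 < s → X.Φ^[s] x = x → x ∈ X.cycles := by
  have hm : m ≤ r ∨ finrank ℚ Y.X.H1 ≤ 2 * (m + r) := hr.imp id fun h => by omega
  exact ⟨fun s f hs hf => tate_dim Z (elementary_of_goodT hZ) Ω Y hY s m hs hm f hf,
    fun X s x hs hx => cover_dim Z (elementary_of_goodT hZ) Ω Y hY m hm X s hs x hx⟩

end Pool.Agent.Results.MP_40dc3c_ag.LowDimensionH82
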