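import Pool.Agent.V7H2.TS.Bridge

/-!
# The Tate conjecture for all varieties in positive characteristic is the strong Tate conjecture for
# smooth projective varieties over the prime field

Let `k` be a finitely generated field, `ℓ` a prime number different from its characteristic. For a
variety `X` over `k` (neither smooth nor proper in general) let `T(X, j)` be the assertion that the map
`c_j : CH_j(X)_(ℚ_ℓ) → H_(2j)(X, ℚ_ℓ(j)) ^ G_k` is surjective (`Tate`), and `Q1(k, ℓ)` the assertion that
this is so for all `X` and `j` (`TateForAll`). The étale homology is described by the properties in
`Pool.Agent.V7H2.TS.Defs`: functoriality, cycle classes, localisation sequence, weights, fundamental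
classes (`IsHomologyTheory`, true for every finitely generated field `k`).

**Theorem.** (1) `T(U, j)` for all complements `U` in `X` of closed subvarieties of pure dimension `j`
implies that `H_(2j)(X, j)` contains no nontrivial self-extension of the trivial representation
(`NoSelfExtensions`). For a finite field `k` this says: the eigenvalue `1` of Frobenius on
`H_(2j)(X, ℚ_ℓ(j))` is semisimple.

Let now `k` be finite, or finitely generated of positive characteristic (`HasLifting`; for finite `k`
it holds automatically, see part (2), the group `Γ` being generated by the Frobenius element; in the
other case see below).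

(3) For every variety `X` and every `j` there are equivalent: `T(U, j)` for all open `U` in `X`;
`T(U, j)` for the complements `U` of closed subvarieties of pure dimension `j`; `T(X, j)` and the
absence of self-extensions for `X`; and `T` for all quotients of the representation `H_(2j)(X, j)`.

(4) `T(X, j)` for all varieties of dimension at most `d` is equivalent to `T(Y, j)` and the absence of
self-extensions for all smooth projective `Y` of dimension at most `d` (`P`). The same without `d`; and
it is enough to know `T(U, j)` for the complements of `j`-dimensional subvarieties in smooth
projective varieties.

(5) `Q1(k, ℓ)` is equivalent to: for all smooth projective `Y` of pure dimension and all `i`, the rank of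
the group of the `i`-dimensional cycles modulo numerical equivalence is the order of the pole at
`s = i` of the zeta function (`poleOrder`; for infinite `k` of the `L`-function). In particular, as these
orders do not depend on `ℓ`, **`Q1(k, ℓ)` does not depend on `ℓ`**.

(6) If `k` is finite and `k'` is a finitely generated extension of `k`, then `Q1(k', ℓ)` is equivalent
to `Q1(k, ℓ)`.

Together: for a prime number `p`, all the assertions `Q1(k, ℓ)` for the finitely generated fields `k` of
characteristic `p` and the prime numbers `ℓ ≠ p` are equivalent to each other and to the conjecture of
Tate on the order of the poles of the zeta functions of smooth projective varieties over the field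
with `p` elements.

Jannsen proved that in characteristic zero `Q1(k, ℓ)` follows from the case of smooth projective
varieties. His proof uses the semisimplicity of a category of motives, which gives the direct factor
that is needed; in positive characteristic a direct factor has to be assumed. By (3) and (4) this
assumption cannot be avoided: the semisimplicity is a consequence of the conjecture for open
subvarieties.

## Idea of the proof

Let `v` be a class in `H_(2j)(X, j)` such that `γ v - v` is invariant for all `γ`. Then the classes
`γ v - v` are algebraic, by `T(X, j)`, and supported on one closed subvariety `Z` of dimension `j`. So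
the restriction of `v` to `U = X - Z` is invariant, therefore algebraic by `T(U, j)`, and `v` is the sum of
an algebraic class and of a class which comes from `Z`. But the homology of `Z` in this degree is a
permutation representation, and it follows that `v` is invariant.

## Why the assumptions are true

*Weights.* `H_a(X, ℚ_ℓ(b))` is mixed of weights at least `2 b - a`; for a proper surjective morphism
`W → X` the cone of `ℚ_ℓ → R g_* ℚ_ℓ`, shifted by `-1`, has cohomology in degrees `n ≥ 1`, of weights at
most `n - 1`; so the cokernel of `H_(2j)(W, j) → H_(2j)(X, j)` has positive weights (Deligne).

*Lifting.* For a representation `N` of the fundamental group of a normal variety `S` over a finite field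
which is pure of weight zero, irreducible and not trivial, `H ^ 1(S, N)` is zero, since
`H ^ 1` of `S` over the algebraic closure has weights at least one and `N` has no coinvariants for
Frobenius on its geometric invariants. So the unipotent part of a pure representation of weight zero is
a direct summand; and the invariants of the quotients of `H_(2j)(X, j)` are in the weight zero part.

*Extension.* Let `k'` be the field of functions of the smooth variety `S` of dimension `r` over `k`,
`𝒳 → S` a model of the variety `X` over `k'`. In the Leray spectral sequence (over the algebraic closure
of `k`) for small `S` the homology `H_(2j+2r)(𝒳, j + r)` has the edge map to the space of sections of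
the sheaf `H_(2j)(𝒳 / S, j)`, which is the space of geometric invariants of `H_(2j)(X, j)`, and the other
terms `H ^ n(S, H_(2j+n-1)(𝒳 / S, j))` have positive weights. So the invariants are in the image of the
generalized eigenspace for the eigenvalue `1` of Frobenius.
-/

open CategoryTheory AlgebraicGeometry

universe u u' v v' w w'

namespace Pool.Agent.Results.MP_40dc3c_ag.OpenVarietiesH2

open Pool.Agent.V7H2.TS

/-- **The Tate conjecture for all varieties over finitely generated fields of positive characteristic
is equivalent to the strong Tate conjecture for smooth projective varieties over finite fields.** -/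
theorem result {k : Type u} [Field k] {K : Type v} [Field K] [CharZero K] {Γ : Type w} [Group Γ]
    (𝓗 : HomologyData k K Γ) (h : IsHomologyTheory 𝓗) :
    OpenImpliesSemisimple 𝓗 ∧
    ((∃ F : Γ, ∀ γ, γ ∈ Subgroup.zpowers F) → HasLifting 𝓗) ∧
    (HasLifting 𝓗 →
      (∀ X j, OpenCriterion 𝓗 X j) ∧
      (∀ P, HasAlterations P → ProjectiveCriterion 𝓗 P ∧
        ∀ I, HasDuality 𝓗 I P → NumericalCriterion 𝓗 P I ∧
          ∀ (K' : Type v') [Field K'] [CharZero K'] (Γ' : Type w') [Group Γ']
            (𝓗' : HomologyData k K' Γ'), IsHomologyTheory 𝓗' → HasLifting 𝓗' →
            HasDuality 𝓗' I P → SamePoleOrders P 𝓗 𝓗' → (TateForAll 𝓗 ↔ TateForAll 𝓗')) ∧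
      ∀ (k' : Type u') [Field k'] (Γ' : Type w') [Group Γ'] (𝓗' : HomologyData k' K Γ'),
        IsExtension 𝓗 𝓗' → (TateForAll 𝓗 ↔ TateForAll 𝓗')) := by
  have hh := isHomologyTheory_toInt h
  refine ⟨Int.tate_and_noSelfExtensions hh, fun hF => ?_, fun hL => ?_⟩
  · exact (hasLifting_toInt h.representation h.equivariant).1
      (Int.hasLifting_of_generator hh.functorial hF)
  have hl := (hasLifting_toInt h.representation h.equivariant).2 hL
  refine ⟨Int.tfae hh hl, fun P hP => ⟨⟨Int.tate_dimLE_iff hh hl hP,
    Int.tateForAll_iff hh hl hP, ?_⟩, fun I hI => ?_⟩, fun k' _ Γ' _ 𝓗' hE => ?_⟩
  · constructor
    · intro h1 Y _ j U _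
      exact h1 U j
    · intro h1
      exact (Int.tateForAll_iff hh hl hP).2 fun Y hY j =>
        Int.tate_and_noSelfExtensions hh Y j (h1 Y hY j)
  · have e : NumericalCriterion 𝓗 P I := by
      have h1 := Int.tateForAll_iff_numerical hh hl hP
        (hasDuality_toInt h.representation h.equivariant hI)
      simp only [poleOrder_toInt] at h1
      exact h1
    refine ⟨e, fun K' _ _ Γ' _ 𝓗' h' hL' hI' hpole => ?_⟩
    have hh' := isHomologyTheory_toInt h'
    have hl' := (hasLifting_toInt h'.representation h'.equivariant).2 hL'
    have e' : NumericalCriterion 𝓗' P I := by
      have h1 := Int.tateForAll_iff_numerical hh' hl' hP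
        (hasDuality_toInt h'.representation h'.equivariant hI')
      simp only [poleOrder_toInt] at h1
      exact h1
    refine e.trans (Iff.trans ?_ e'.symm)
    constructor
    · intro h1 Y hY i j hij
      rw [← hpole Y hY i]
      exact h1 Y hY i j hij
    · intro h1 Y hY i j hij
      rw [hpole Y hY i]
      exact h1 Y hY i j hij
  · refine ⟨fun h1 => tateForAll_of_extension hE h1 h hL, fun h1 X₀ j v hv => ?_⟩
    obtain ⟨X, b, hb, hb'⟩ := hE.constant X₀ j v hv
    exact hb' (h1 X j _ hb)

end Pool.Agent.Results.MP_40dc3c_ag.OpenVarietiesH2
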