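import Mathlib
import Pool.Agent.V7H95.Fin.Gen

/-!
# The Tate conjecture for singular and open varieties over finite fields generated by abelian varieties
# whose Frobenius eigenvalues lie in regular blocks

Over a finite field each abelian variety becomes isogenous, after a finite extension, to the
reduction of an abelian variety of CM type (`RedAV`; Honda, Tate). Let `Z` be such a variety over the
field with `q` elements. The complex Frobenius eigenvalues `x` on its first cohomology have slopes `λ`
(`slope`, normalised such that `q` has slope one), the complex conjugate of `x` is `q / x`; the weights
are the numbers `u = D (2 λ - 1)`, with a denominator `D > 0` such that they are integers (one may take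
another `D` for each Galois orbit). Suppose (`HasPureBlocks`) that each eigenvalue `x` of `Z`

* generates a number field which has degree `ℓ ^ k`, `ℓ` a prime number, over an imaginary quadratic
  subfield `K`, and `ℓ` does not divide the sum of the weights over the conjugates of `x` over `K`
  (`IsOverQuadratic`);
* or it generates a field of degree `2 ℓ ^ k`, and the sum of the weights over each set that contains
  one of each two complex conjugate conjugates of `x` is not divisible by `ℓ`
  (`HasPrimePowerDegree`);
* or it belongs to a regular block (`IsInRegularBlock`): a set `B` of eigenvalues without complex
  conjugate elements which is stable under a group `P` of automorphisms of the complex numbers that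
  act on `B` with orders which are powers of a prime number `ℓ`, such that `B` is one orbit of `P` and
  for some automorphism `σ` the sum of the weights `u (σ y)`, `y ∈ B`, is not divisible by `ℓ`; or, more
  generally, such that all functions on `B` modulo `ℓ` which are invariant under `P` and orthogonal to
  all translates of the weights vanish (for instance `B = {x}`, if some conjugate of `x` has a weight
  which is not divisible by `ℓ`);
* or it is real (supersingular).

In the first three cases `x` (the block) shall be flipped against the nonreal eigenvalues outside of
its Galois orbit (outside of `B` and its conjugate): an automorphism of the complex numbers fixes one of
the two and conjugates the other, or maps `x` to `y` and `y` to the conjugate of `x`. This is no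
condition if `Z` is a power of a simple variety, in the first two cases. **Nothing is assumed on the
Galois groups of the number fields**, on the endomorphism algebras (which need not be
commutative) and on the dimensions.

`Homology Ω V` are data of motivic homology `M X i j = H_i^M(X, ℚ(j)) = CH_j(X, i - 2 j) ⊗ ℚ` and of
`ℓ`-adic homology `E X i j = H_i(X, ℚ_ℓ(j))` (coefficients extended to the algebraically closed field
`Ω`) of schemes `X` of finite type over a finite field (the elements of `V`; neither smooth nor
proper), with the Frobenius and the regulator, which is the cycle map for `i = 2 j`. Let `𝒢` be the
smallest class (`Generated`) of such schemes that contains those with the homology groups of abelian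
varieties `Y` which are isogenous (over an algebraic closure) to products of powers of the factors of
some `Z` as above and of supersingular abelian varieties (`IsBlockAbelian`), that is closed
under direct summands of finite sums of twists of motives, and that contains all of a closed subscheme
of `X`, `X` and the complement if it contains two of them.

**Theorem.** For all `X` in `𝒢` and all `j` each class in `H_{2j}(X, Ω(j))` which is fixed by Frobenius is
a linear combination of classes of cycles of dimension `j`; the cycle map on `CH_j(X) ⊗ Ω` is
injective; the eigenvalue one of the Frobenius is semisimple. More generally this holds for the
regulators in all degrees and for all twists (`TB`, Jannsen's generalised conjecture of Tate and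
Beilinson). All open and all closed subvarieties of members whose complements are members are
included.

Proof. A multiplicative relation between the Frobenius eigenvalues, `q` and roots of unity is a
relation between the translates of the weights. It splits according to the blocks, since the
correlation of flipped eigenvalues is zero (`rel_block`). On a block, the relations modulo `ℓ` form a
vector space over the field with `ℓ` elements on which a group acts through an `ℓ`-group; if there is a
relation, then there is a nonzero invariant one, which contradicts the condition on the weights
(`block_mod`; if the degree is `ℓ ^ k` over an imaginary quadratic field one takes a Sylow subgroup,
which is transitive). So all relations are generated by those between complex conjugate eigenvalues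
(`elementary_of_blocks`), and all Tate classes on all products are algebraic. The passage from there to all degrees and to the class `Generated` (Soulé,
Geisser, Kahn, Jannsen) was formalised in the starting files.
-/

set_option autoImplicit false

namespace Pool.Agent.Results.MP_40dc3c_ag.PrimePowerBlocksH95

open Pool.Agent.W495.FM Pool.Agent.V7H95.Fin

/-- **The conjecture of Tate (and Beilinson) in all degrees for all varieties over finite fields, smooth
and proper or not, generated by abelian varieties whose Frobenius eigenvalues lie in regular
blocks.** -/
theorem result (p : ℕ) [Fact p.Prime] (ν : PadicAlgCl p ≃+* ℂ) {Ω V : Type} [Field Ω]
    [IsAlgClosed Ω] [CharZero Ω] (T : Homology Ω V) (hT : IsHomology T) (X : V)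
    (hX : Generated T (IsBlockAbelian p ν T) X) (i j : ℤ) :
    (∀ e, T.frob X i j e = e ↔ e ∈ Submodule.span Ω (Set.range (T.reg X i j))) ∧
    (∀ (r : ℕ) (x : Fin r → T.M X i j), LinearIndependent ℚ x →
      LinearIndependent Ω fun k => T.reg X i j (x k)) ∧
    ∀ e, T.frob X i j (T.frob X i j e - e) = T.frob X i j e - e → T.frob X i j e = e :=
  tb_block hT hX i j

end Pool.Agent.Results.MP_40dc3c_ag.PrimePowerBlocksH95
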